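import Pool.Agent.Y990.OA.Stm3
import Pool.Agent.Y737.OA.Chain

set_option autoImplicit false

open MeasureTheory Set

/-!
Project OA, job OA-ROW: the crossings of disjoint boxes are independent.
-/

namespace Pool.Agent.Y604.OA

open Pool.Agent.W783.PC (pm DepOn Inc)
open Pool.Agent.Y990.CB
open Pool.Agent.Y990.OA

lemma disj {d : ℕ} (i : Fin d) (m : ℕ) {j j' : ℕ} (h : j < j') :
    Disjoint (Bo (rw0 i m j) m) (Bo (rw0 i m j') m) := by
  rw [Set.disjoint_left]
  intro x hx hx'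
  have h1 := hx i
  have h2 := hx' i
  have e1 : rw0 i m j i = ((j * (2 * m + 1) : ℕ) : ℤ) := by
    unfold rw0
    exact Pi.single_eq_same i _
  have e2 : rw0 i m j' i = ((j' * (2 * m + 1) : ℕ) : ℤ) := by
    unfold rw0
    exact Pi.single_eq_same i _
  rw [e1, abs_le] at h1
  rw [e2, abs_le] at h2
  have h3 : (j + 1) * (2 * m + 1) ≤ j' * (2 * m + 1) := Nat.mul_le_mul_right _ h
  rw [Nat.succ_mul] at h3
  obtain ⟨a, ha⟩ : ∃ a, a = j * (2 * m + 1) := ⟨_, rfl⟩
  obtain ⟨b, hb⟩ : ∃ b, b = j' * (2 * m + 1) := ⟨_, rfl⟩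
  rw [← ha] at h1 h3
  rw [← hb] at h2 h3
  omega

theorem row : S_row := by
  intro d M p i k m J
  obtain ⟨A, hA⟩ : ∃ A : ℕ → Set (M.ι → Bool), ∀ j, A j =
    Lk M (Bo (rw0 i m j) m) (Bo (rw0 i m j) k) (Fr (rw0 i m j) m) := ⟨_, fun _ => rfl⟩
  have e : {ω | ∀ j : ℕ, j < J →
      ω ∈ Lk M (Bo (rw0 i m j) m) (Bo (rw0 i m j) k) (Fr (rw0 i m j) m)} =
      ⋂ j ∈ Finset.range J, A j := by
    ext ω
    simp only [mem_ofPred_eq, mem_iInter, Finset.mem_range, hA]
  rw [e]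
  have hi := Pool.Agent.W45.PC.s_indepF M.ι (fun _ => p) ℕ (Finset.range J)
    (fun j => In M (Bo (rw0 i m j) m)) A
    (fun j _ => by rw [hA]; exact Lk_dep M _ _ _)
    (fun j _ j' _ hne => by
      rcases lt_or_gt_of_ne hne with h | h
      · exact In_disj M (disj i m h)
      · exact (In_disj M (disj i m h)).symm)
    (fun j _ => by rw [hA]; exact Lk_meas M _ _ _)
  have hm : ∀ j, (mu M p).real (A j) = 1 - hol M p k m := by
    intro j
    have h1 := Pool.Agent.Y737.OA.hol_shift M p (rw0 i m j) k m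
    rw [zero_add] at h1
    have h2 := probReal_compl_eq_one_sub (μ := mu M p)
      (Lk_meas M (Bo (rw0 i m j) m) (Bo (rw0 i m j) k) (Fr (rw0 i m j) m))
    have h3 : {ω | ω ∉ Lk M (Bo (rw0 i m j) m) (Bo (rw0 i m j) k) (Fr (rw0 i m j) m)} =
      (Lk M (Bo (rw0 i m j) m) (Bo (rw0 i m j) k) (Fr (rw0 i m j) m))ᶜ := rfl
    rw [h3, h2] at h1
    rw [hA]
    linarith
  have h4 : (mu M p).real (⋂ j ∈ Finset.range J, A j) =
      ∏ j ∈ Finset.range J, (mu M p).real (A j) := by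
    unfold Measure.real mu
    rw [hi, ENNReal.toReal_prod]
  rw [h4, Finset.prod_congr rfl (fun j _ => hm j), Finset.prod_const, Finset.card_range]

end Pool.Agent.Y604.OA
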